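import Pool.Agent.helper87.FS.Spec

/-!
# MP_abccb5_co, project FS, row CXF: the number of the pairs (adjacency matrix, marks)
-/

set_option autoImplicit false

namespace Pool.Agent.FS

open Polynomial Matrix Pool.Agent.helper42.NS

theorem CXF_tr {t : ℕ} {H : Matrix (Fin (t + 1)) (Fin (t + 1)) ℤ} (h : IsGr H) : IsGr (trH H) :=
  ⟨fun i j => h.1 i.succ j.succ, fun i => h.2.1 i.succ, fun i j => h.2.2 i.succ j.succ⟩

theorem CXF_bord {t : ℕ} {H : Matrix (Fin t) (Fin t) ℤ} (h : IsGr H) (b : Fin t → Bool) : IsGr (bord H (ind b)) := by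
  have hb : ∀ j, ind b j = 0 ∨ ind b j = 1 := by
    intro j
    unfold ind
    by_cases hj : b j = true
    · right
      rw [if_pos hj]
    · left
      rw [if_neg hj]
  refine ⟨?_, ?_, ?_⟩
  · intro i j
    refine Fin.cases ?_ (fun i => ?_) i
    · refine Fin.cases ?_ (fun j => ?_) j
      · left
        rfl
      · exact hb j
    · refine Fin.cases ?_ (fun j => ?_) j
      · exact hb i
      · exact h.1 i j
  · intro i
    refine Fin.cases ?_ (fun i => ?_) i
    · rfl
    · exact h.2.1 i
  · intro i j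
    refine Fin.cases ?_ (fun i => ?_) i
    · refine Fin.cases ?_ (fun j => ?_) j
      · rfl
      · rfl
    · refine Fin.cases ?_ (fun j => ?_) j
      · rfl
      · exact h.2.2 i j

/-- one more vertex -/
def CXF_e (t : ℕ) : {H : Matrix (Fin (t + 1)) (Fin (t + 1)) ℤ // IsGr H} ≃
    {H : Matrix (Fin t) (Fin t) ℤ // IsGr H} × (Fin t → Bool) where
  toFun H := (⟨trH H.1, CXF_tr H.2⟩, fun j => decide (H.1 0 j.succ = 1))
  invFun p := ⟨bord p.1.1 (ind p.2), CXF_bord p.1.2 p.2⟩
  left_inv := by
    rintro ⟨H, hH⟩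
    apply Subtype.ext
    show bord (trH H) (ind fun j => decide (H 0 j.succ = 1)) = H
    have key : ∀ j : Fin t, (ind fun j => decide (H 0 j.succ = 1)) j = H 0 j.succ := by
      intro j
      unfold ind
      rcases hH.1 0 j.succ with h | h
      · simp [h]
      · simp [h]
    ext i j
    refine Fin.cases ?_ (fun i => ?_) i
    · refine Fin.cases ?_ (fun j => ?_) j
      · rw [hH.2.1 0]
        rfl
      · rw [bord_zero_succ]
        exact key j
    · refine Fin.cases ?_ (fun j => ?_) j
      · rw [bord_succ_zero, hH.2.2 i.succ 0]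
        exact key i
      · rfl
  right_inv := by
    rintro ⟨⟨H, hH⟩, b⟩
    refine Prod.ext (Subtype.ext ?_) ?_
    · ext i j
      rfl
    · funext j
      show decide (bord H (ind b) 0 j.succ = 1) = b j
      rw [bord_zero_succ]
      unfold ind
      cases b j <;> simp

theorem CXF_card (t : ℕ) : Nat.card {H : Matrix (Fin t) (Fin t) ℤ // IsGr H} = 2 ^ (t.choose 2) := by
  induction t with
  | zero =>
    rw [Nat.card_eq_one_iff_unique.2 ⟨?_, ?_⟩]
    · rfl
    · refine ⟨fun a b => Subtype.ext ?_⟩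
      ext i
      exact i.elim0
    · exact ⟨⟨fun i => i.elim0, fun i => i.elim0, fun i => i.elim0, fun i => i.elim0⟩⟩
  | succ t ih =>
    rw [Nat.card_congr (CXF_e t), Nat.card_prod, ih, Nat.card_eq_fintype_card, Fintype.card_fun, Fintype.card_bool,
      Fintype.card_fin, ← pow_add]
    congr 1
    rw [show (2 : ℕ) = 1 + 1 from rfl, Nat.choose_succ_succ' t 1, Nat.choose_one_right]
    omega

theorem CXF : CXF_stmt := by
  intro t k
  let e : ({HB : Matrix (Fin t) (Fin t) ℤ × (Fin k → Fin t → Bool) | IsGr HB.1} : Set _) ≃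
      {H : Matrix (Fin t) (Fin t) ℤ // IsGr H} × (Fin k → Fin t → Bool) :=
    { toFun := fun x => (⟨x.1.1, x.2⟩, x.1.2)
      invFun := fun p => ⟨(p.1.1, p.2), p.1.2⟩
      left_inv := fun x => rfl
      right_inv := fun p => rfl }
  have h1 : Nat.card ({HB : Matrix (Fin t) (Fin t) ℤ × (Fin k → Fin t → Bool) | IsGr HB.1} : Set _) =
      2 ^ (t.choose 2 + k * t) := by
    rw [Nat.card_congr e, Nat.card_prod, CXF_card, Nat.card_eq_fintype_card, Fintype.card_fun, Fintype.card_fun,
      Fintype.card_bool, Fintype.card_fin, Fintype.card_fin, ← pow_mul, ← pow_add, mul_comm t k]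
  refine ⟨?_, h1⟩
  have h2 : Finite ({HB : Matrix (Fin t) (Fin t) ℤ × (Fin k → Fin t → Bool) | IsGr HB.1} : Set _) := by
    apply Nat.finite_of_card_ne_zero
    rw [h1]
    positivity
  exact Set.toFinite _

end Pool.Agent.FS
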